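import Pool.Agent.T9h85.MB.C4d

/-! # (C4) from the moments to the CNF of the system -/

set_option autoImplicit false
set_option linter.unusedSectionVars false

namespace Pool.Agent.T9h85.MB

open Finset Pool.Agent.T9h19.MB

section
variable {U L R J : Type} [Fintype U] [DecidableEq U] [Fintype L] [DecidableEq L]
  [Fintype R] [DecidableEq R] [Fintype J] [DecidableEq J]

variable (D : Dat U L R J) (θ : J → ℝ) (ℓ : Finset (U × Bool) → ℝ)

/-! ## sizes -/

/-- the variables as a sum type -/
def toSum : Var U L R → (U ⊕ L) ⊕ ((L × R) ⊕ (R × Fin (Fintype.card L + 1))) ⊕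
    ((L × Fin (Fintype.card R + 1)) ⊕ Unit)
  | .u x => .inl (.inl x)
  | .act a => .inl (.inr a)
  | .w a b => .inr (.inl (.inl (a, b)))
  | .col b j => .inr (.inl (.inr (b, j)))
  | .row a j => .inr (.inr (.inl (a, j)))
  | .one => .inr (.inr (.inr ()))

theorem toSum_inj : Function.Injective (toSum (U := U) (L := L) (R := R)) := by
  intro v w h
  cases v <;> cases w <;> simp_all [toSum]

theorem card_var : Fintype.card (Var U L R) ≤ 3 * sz U L R := by
  refine (Fintype.card_le_of_injective _ (toSum_inj (U := U) (L := L) (R := R))).trans ?_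
  simp only [Fintype.card_sum, Fintype.card_prod, Fintype.card_fin, Fintype.card_unit]
  unfold sz
  generalize Fintype.card U = u
  generalize Fintype.card L = l
  generalize Fintype.card R = r
  have : r * l = l * r := mul_comm _ _
  ring_nf
  rw [this] at *
  nlinarith

theorem card_conj : (Fintype.card (Finset (Var U L R × Bool)) : ℝ) ≤ 2 ^ (6 * sz U L R) := by
  rw [Fintype.card_finset, Fintype.card_prod, Fintype.card_bool]
  push_cast
  exact pow_le_pow_right₀ one_le_two (by have := card_var (U := U) (L := L) (R := R); omega)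

theorem two_sz : (2 * (sz U L R : ℝ)) ≤ 2 ^ (2 * sz U L R) := by
  have h : 2 * sz U L R < 2 ^ (2 * sz U L R) := Nat.lt_two_pow_self
  exact_mod_cast h.le

/-! ## positivity -/

theorem psd_main {d : ℕ} {δ : ℝ} (hδ0 : 0 < δ)
    (hc : ∀ (S : Finset (U × Bool)) (u : U), ℓ (insert (u, true) S) + ℓ (insert (u, false) S) = ℓ S)
    (hpsd : ∀ c : Finset (U × Bool) × Finset (L × R) → ℝ,
      (∀ z, c z ≠ 0 → z.1.card ≤ 2 * d ∧ z.2.card ≤ d ∧ ∀ p ∈ z.2, D.ok p.1 p.2) →
      0 ≤ ∑ z, ∑ z', c z * c z' *
        (ℓ (z.1 ∪ z'.1 ∪ D.rows (z.2 ∪ z'.2)) * D.wt θ (z.2 ∪ z'.2)) +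
        δ * 2 ^ (100 * (d + 1) * sz U L R) * ∑ z, c z ^ 2)
    (c : Finset (Var U L R × Bool) → ℝ) (hcd : ∀ S, c S ≠ 0 → S.card ≤ d) :
    0 ≤ ∑ S, ∑ S', c S * c S' * E D θ ℓ (ind D (S ∪ S')) +
      δ * 2 ^ (1000 * (d + 1) * sz U L R) * ∑ S, c S ^ 2 := by
  classical
  have hsz1 : 1 ≤ sz U L R := by unfold sz; omega
  have hsz : (1 : ℝ) ≤ (sz U L R : ℕ) := by exact_mod_cast hsz1
  choose k hk1 hk2 hk3 using fun S : Finset (Var U L R × Bool) => rep_ind D S
  obtain ⟨k', hk'⟩ : ∃ k' : Finset (Var U L R × Bool) → Finset (U × Bool) × Finset (L × R) → ℝ,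
    ∀ S z, k' S z = if S.card ≤ d then k S z else 0 := ⟨_, fun _ _ => rfl⟩
  obtain ⟨ch, hch⟩ : ∃ ch : Finset (U × Bool) × Finset (L × R) → ℝ,
    ∀ z, ch z = ∑ S, c S * k' S z := ⟨_, fun _ => rfl⟩
  have hchz : ∀ z, ch z ≠ 0 → z.1.card ≤ 2 * d ∧ z.2.card ≤ d ∧ Ok D z.2 := by
    intro z hz
    rw [hch] at hz
    obtain ⟨S, -, hS⟩ := exists_ne_zero_of_sum_ne_zero hz
    have h1 := right_ne_zero_of_mul hS
    rw [hk'] at h1
    have h2 : S.card ≤ d := by
      by_contra h3
      exact h1 (if_neg h3)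
    rw [if_pos h2] at h1
    have h3 := hk1 S z h1
    exact ⟨h3.1.trans (by omega), h3.2.1.trans h2, h3.2.2⟩
  -- the form
  have e1 : ∑ S, ∑ S', c S * c S' * E D θ ℓ (ind D (S ∪ S')) =
      ∑ z, ∑ z', ch z * ch z' *
        (ℓ (z.1 ∪ z'.1 ∪ D.rows (z.2 ∪ z'.2)) * D.wt θ (z.2 ∪ z'.2)) := by
    have e2 : ∑ S, ∑ S', c S * c S' * E D θ ℓ (ind D (S ∪ S')) =
        E D θ ℓ (fun x P => (∑ S, c S * ind D S x P) * ∑ S', c S' * ind D S' x P) := by
      rw [E_bilin]
      refine sum_congr rfl fun S _ => sum_congr rfl fun S' _ => ?_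
      refine congrArg (fun t : ℝ => c S * c S' * t) ?_
      refine E_congr D θ ℓ fun x P _ => ?_
      rw [ind_union]
    have e3 : E D θ ℓ (fun x P => (∑ S, c S * ind D S x P) * ∑ S', c S' * ind D S' x P) =
        E D θ ℓ (fun x P => (∑ z, ch z * beta z x P) * ∑ z', ch z' * beta z' x P) := by
      refine E_congr D θ ℓ fun x P hs => ?_
      have e4 : ∑ S, c S * ind D S x P = ∑ z, ch z * beta z x P := by
        have e5 : ∀ S, c S * ind D S x P = ∑ z, c S * k' S z * beta z x P := by
          intro S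
          by_cases h0 : c S = 0
          · rw [h0, zero_mul]
            symm
            exact sum_eq_zero fun z _ => by rw [zero_mul, zero_mul]
          · rw [hk3 S x P hs, mul_sum]
            refine sum_congr rfl fun z _ => ?_
            rw [hk', if_pos (hcd S h0), mul_assoc]
        rw [sum_congr rfl fun S _ => e5 S, sum_comm]
        refine sum_congr rfl fun z _ => ?_
        rw [hch, sum_mul]
      rw [e4]
    rw [e2, e3, E_bilin]
    refine sum_congr rfl fun z _ => sum_congr rfl fun z' _ => ?_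
    by_cases hz : ch z = 0
    · rw [hz, zero_mul, zero_mul, zero_mul]
    by_cases hz' : ch z' = 0
    · rw [hz', mul_zero, zero_mul, zero_mul]
    refine congrArg (fun t : ℝ => ch z * ch z' * t) ?_
    have e6 : E D θ ℓ (fun x P => beta z x P * beta z' x P) =
        E D θ ℓ (beta (z.1 ∪ z'.1, z.2 ∪ z'.2)) :=
      E_congr D θ ℓ fun x P _ => beta_mul z z' x P
    rw [e6, E_beta D θ ℓ hc, if_pos]
    intro p hp
    rcases mem_union.1 hp with h | h
    · exact (hchz z hz).2.2 p h
    · exact (hchz z' hz').2.2 p h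
  rw [e1]
  refine (hpsd ch hchz).trans (add_le_add le_rfl ?_)
  -- the error term
  have b1 : ∀ z, ch z ^ 2 ≤ (∑ S, c S ^ 2) * ∑ S, k' S z ^ 2 := fun z => by
    rw [hch]
    exact sum_mul_sq_le_sq_mul_sq univ c (fun S => k' S z)
  have b2 : ∀ S, ∑ z, k' S z ^ 2 ≤ ((2 * (sz U L R : ℝ)) ^ d) ^ 2 := by
    intro S
    by_cases hS : S.card ≤ d
    · have b3 : ∑ z, |k' S z| ≤ (2 * (sz U L R : ℝ)) ^ d := by
        have b4 : ∑ z, |k' S z| = ∑ z, |k S z| := by
          refine sum_congr rfl fun z _ => ?_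
          rw [hk', if_pos hS]
        rw [b4]
        refine (hk2 S).trans (pow_le_pow_right₀ (by linarith) hS)
      calc ∑ z, k' S z ^ 2 = ∑ z, |k' S z| ^ 2 := by
            refine sum_congr rfl fun z _ => ?_
            rw [sq_abs]
        _ ≤ (∑ z, |k' S z|) ^ 2 := sum_sq_le_sq_sum_of_nonneg fun z _ => abs_nonneg _
        _ ≤ _ := pow_le_pow_left₀ (sum_nonneg fun z _ => abs_nonneg _) b3 2
    · have b3 : ∑ z, k' S z ^ 2 = 0 := by
        refine sum_eq_zero fun z _ => ?_
        rw [hk', if_neg hS]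
        norm_num
      rw [b3]
      positivity
  have b5 : ∑ z, ch z ^ 2 ≤ (∑ S, c S ^ 2) * (2 ^ (6 * sz U L R) *
      ((2 * (sz U L R : ℝ)) ^ d) ^ 2) := by
    calc ∑ z, ch z ^ 2 ≤ ∑ z, (∑ S, c S ^ 2) * ∑ S, k' S z ^ 2 := sum_le_sum fun z _ => b1 z
      _ = (∑ S, c S ^ 2) * ∑ S, ∑ z, k' S z ^ 2 := by rw [← mul_sum, sum_comm]
      _ ≤ (∑ S, c S ^ 2) * ∑ _S : Finset (Var U L R × Bool), ((2 * (sz U L R : ℝ)) ^ d) ^ 2 :=
          mul_le_mul_of_nonneg_left (sum_le_sum fun S _ => b2 S)
            (sum_nonneg fun S _ => sq_nonneg _)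
      _ = (∑ S, c S ^ 2) * ((Fintype.card (Finset (Var U L R × Bool)) : ℝ) *
          ((2 * (sz U L R : ℝ)) ^ d) ^ 2) := by
          rw [sum_const, card_univ, nsmul_eq_mul]
      _ ≤ _ := by
          refine mul_le_mul_of_nonneg_left ?_ (sum_nonneg fun S _ => sq_nonneg _)
          exact mul_le_mul_of_nonneg_right card_conj (by positivity)
  have b6 : ((2 * (sz U L R : ℝ)) ^ d) ^ 2 ≤ 2 ^ (4 * d * sz U L R) := by
    rw [← pow_mul]
    calc (2 * (sz U L R : ℝ)) ^ (d * 2) ≤ (2 ^ (2 * sz U L R)) ^ (d * 2) :=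
          pow_le_pow_left₀ (by positivity) two_sz _
      _ = 2 ^ (4 * d * sz U L R) := by
          rw [← pow_mul]
          congr 1
          ring
  have b7 : (2 : ℝ) ^ (100 * (d + 1) * sz U L R) * (2 ^ (6 * sz U L R) *
      ((2 * (sz U L R : ℝ)) ^ d) ^ 2) ≤ 2 ^ (1000 * (d + 1) * sz U L R) := by
    calc (2 : ℝ) ^ (100 * (d + 1) * sz U L R) * (2 ^ (6 * sz U L R) *
        ((2 * (sz U L R : ℝ)) ^ d) ^ 2)
        ≤ (2 : ℝ) ^ (100 * (d + 1) * sz U L R) * (2 ^ (6 * sz U L R) *
          2 ^ (4 * d * sz U L R)) := by gcongr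
      _ = 2 ^ (100 * (d + 1) * sz U L R + (6 * sz U L R + 4 * d * sz U L R)) := by
          rw [pow_add, pow_add]
      _ ≤ _ := by
          refine pow_le_pow_right₀ one_le_two ?_
          nlinarith
  calc δ * 2 ^ (100 * (d + 1) * sz U L R) * ∑ z, ch z ^ 2
      ≤ δ * 2 ^ (100 * (d + 1) * sz U L R) * ((∑ S, c S ^ 2) * (2 ^ (6 * sz U L R) *
        ((2 * (sz U L R : ℝ)) ^ d) ^ 2)) := mul_le_mul_of_nonneg_left b5 (by positivity)
    _ = δ * (2 ^ (100 * (d + 1) * sz U L R) * (2 ^ (6 * sz U L R) *
        ((2 * (sz U L R : ℝ)) ^ d) ^ 2)) * ∑ S, c S ^ 2 := by ring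
    _ ≤ δ * 2 ^ (1000 * (d + 1) * sz U L R) * ∑ S, c S ^ 2 := by
        refine mul_le_mul_of_nonneg_right (mul_le_mul_of_nonneg_left b7 hδ0.le)
          (sum_nonneg fun S _ => sq_nonneg _)

/-! ## the clauses -/

theorem neg_pair {V : Type} [DecidableEq V] (a b : V × Bool) :
    neg (forb [a, b]) = {a, b} := by
  unfold neg forb
  ext l
  simp only [List.map_cons, List.map_nil, List.toFinset_cons, List.toFinset_nil, mem_image,
    mem_insert, mem_singleton, insert_empty_eq]
  constructor
  · rintro ⟨x, rfl | rfl, rfl⟩ <;> simp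
  · rintro (rfl | rfl)
    · exact ⟨(l.1, !l.2), Or.inl rfl, by simp⟩
    · exact ⟨(l.1, !l.2), Or.inr rfl, by simp⟩

theorem err_bound {d : ℕ} {S : Finset (Var U L R × Bool)} (hS : S.card ≤ d) {δ : ℝ} (hδ0 : 0 < δ)
    {h : (U → Bool) → Finset (L × R) → ℝ}
    (hh : ∀ z : Finset (U × Bool) × Finset (L × R), z.1.card ≤ 2 * d → z.2.card ≤ d → Ok D z.2 →
      |E D θ ℓ (fun x P => beta z x P * h x P)| ≤ δ) {C : Cl (Var U L R)}
    (hC : ∀ x P, Sup D x P → ind D (neg C) x P = h x P) :
    |E D θ ℓ (ind D (S ∪ neg C))| ≤ δ * 2 ^ (1000 * (d + 1) * sz U L R) := by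
  have hsz1 : 1 ≤ sz U L R := by unfold sz; omega
  have hsz : (1 : ℝ) ≤ (sz U L R : ℕ) := by exact_mod_cast hsz1
  have h1 : E D θ ℓ (ind D (S ∪ neg C)) = E D θ ℓ (fun x P => ind D S x P * h x P) :=
    E_congr D θ ℓ fun x P hs => by rw [ind_union, hC x P hs]
  rw [h1]
  have h2 : Rep D (2 * d) d ((2 * (sz U L R : ℝ)) ^ d) (ind D S) :=
    (rep_ind D S).mono (by omega) hS (pow_le_pow_right₀ (by linarith) hS)
  refine (E_rep_bound D θ ℓ h2 h hδ0.le hh).trans ?_
  rw [mul_comm]
  refine mul_le_mul_of_nonneg_left ?_ hδ0.le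
  calc (2 * (sz U L R : ℝ)) ^ d ≤ (2 ^ (2 * sz U L R)) ^ d :=
        pow_le_pow_left₀ (by positivity) two_sz _
    _ = 2 ^ (2 * sz U L R * d) := by rw [← pow_mul]
    _ ≤ _ := pow_le_pow_right₀ one_le_two (by nlinarith)

theorem exists_pe (N d : ℕ)
    (hN : 20 * (d + 4) ≤ N) (hm : Mom D θ N ℓ) (hθ : ∀ j, (4 * d + 20 : ℝ) ≤ θ j)
    (δ : ℝ) (hδ0 : 0 < δ) (_hδ1 : δ ≤ 1) (hT : ∀ j, |(D.cnt j : ℝ) - θ j| ≤ δ)
    (hpsd : ∀ c : Finset (U × Bool) × Finset (L × R) → ℝ,
      (∀ z, c z ≠ 0 → z.1.card ≤ 2 * d ∧ z.2.card ≤ d ∧ ∀ p ∈ z.2, D.ok p.1 p.2) →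
      0 ≤ ∑ z, ∑ z', c z * c z' *
        (ℓ (z.1 ∪ z'.1 ∪ D.rows (z.2 ∪ z'.2)) * D.wt θ (z.2 ∪ z'.2)) +
        δ * 2 ^ (100 * (d + 1) * sz U L R) * ∑ z, c z ^ 2) :
    Nonempty (PE D.cnf (fun S => S.card ≤ d) (δ * 2 ^ (1000 * (d + 1) * sz U L R))) := by
  classical
  have hc := hm.compl
  have hη : 0 ≤ δ * 2 ^ (1000 * (d + 1) * sz U L R) := by positivity
  refine ⟨⟨fun S => E D θ ℓ (ind D S), ?_, ?_, ?_, ?_⟩⟩
  · -- one
    have h1 : E D θ ℓ (ind D ∅) = E D θ ℓ (beta (∅, ∅)) := by
      refine E_congr D θ ℓ fun x P _ => ?_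
      unfold ind beta
      rw [prod_empty, if_pos]
      exact ⟨fun l hl => absurd hl (notMem_empty _), empty_subset _⟩
    have h2 : D.rows (∅ : Finset (L × R)) = ∅ := by unfold Dat.rows; rw [biUnion_empty]
    have h3 : D.wt θ (∅ : Finset (L × R)) = 1 := by
      unfold Dat.wt
      rw [if_pos]
      · refine prod_eq_one fun j _ => ?_
        rw [filter_empty, card_empty]
        unfold ff
        rw [range_zero, prod_empty, inv_one]
      · exact ⟨fun p hp => absurd hp (notMem_empty _), fun p hp => absurd hp (notMem_empty _)⟩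
    have h4 : Ok D (∅ : Finset (L × R)) := fun p hp => absurd hp (notMem_empty _)
    rw [h1, E_beta D θ ℓ hc, if_pos h4]
    rw [h2, h3, union_empty, hm.one, mul_one]
  · -- compl
    intro S v
    have h1 : E D θ ℓ (ind D (insert (v, false) S)) =
        E D θ ℓ (ind D S) - E D θ ℓ (ind D (insert (v, true) S)) := by
      rw [← E_sub]
      refine E_congr D θ ℓ fun x P _ => ?_
      rw [ind_eq, ind_eq, ind_eq]
      simp only [forall_mem_insert]
      by_cases h2 : ∀ l ∈ S, val D x P l.1 = l.2
      · rw [if_pos h2]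
        by_cases h3 : val D x P v = true
        · rw [if_neg (fun h4 => by rw [h3] at h4; exact Bool.noConfusion h4.1),
            if_pos ⟨h3, h2⟩, sub_self]
        · rw [if_pos ⟨by simpa using h3, h2⟩, if_neg (fun h4 => h3 h4.1), sub_zero]
      · rw [if_neg h2, if_neg (fun h3 => h2 h3.2), if_neg (fun h3 => h2 h3.2), sub_zero]
    rw [h1]
    ring
  · -- psd
    exact fun c hcd => psd_main D θ ℓ hδ0 hc hpsd c hcd
  · -- ax
    intro C hC S hS
    have hz0 : (∀ x P, Sup D x P → ∃ l ∈ C, val D x P l.1 = l.2) →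
        |E D θ ℓ (ind D (S ∪ neg C))| ≤ δ * 2 ^ (1000 * (d + 1) * sz U L R) := by
      intro h
      rw [e_zero D θ ℓ S h, abs_zero]
      exact hη
    unfold Dat.cnf at hC
    rw [mem_union, mem_union, mem_union, mem_union] at hC
    rcases hC with (((hC | hC) | hC) | hC) | hC
    · -- the constant
      rw [mem_singleton] at hC
      subst hC
      exact hz0 fun x P _ => forb_sat _ _ ⟨_, List.mem_singleton_self _, by
        unfold val; simp⟩
    · -- forbidden pairs
      obtain ⟨p, hp, rfl⟩ := mem_image.1 hC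
      have hp' := (mem_filter.1 hp).2
      refine hz0 fun x P hs => forb_sat _ _ ⟨_, List.mem_singleton_self _, ?_⟩
      unfold val
      simp only [ne_eq, decide_eq_true_eq]
      exact fun h => hp' (hs.1 _ h)
    · -- columns
      obtain ⟨b, hb, hC⟩ := mem_biUnion.1 hC
      rw [mem_union, mem_union] at hC
      rcases hC with (hC | hC) | hC
      · rw [mem_singleton] at hC
        subst hC
        refine hz0 fun x P _ => forb_sat _ _ ⟨_, List.mem_singleton_self _, ?_⟩
        simp only
        rw [val_zero_col]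
        simp
      · obtain ⟨i, -, hC⟩ := mem_biUnion.1 hC
        exact hz0 fun x P hs => add_sat _ (val_col_succ D x P b i) (val_col_excl D hs b i) C hC
      · unfold EQ at hC
        rw [mem_insert, mem_singleton] at hC
        rcases hC with rfl | rfl
        · exact hz0 fun x P _ => forb_sat _ _ ⟨(Var.one, false), by simp, by
            unfold val; simp⟩
        · refine err_bound D θ ℓ hS hδ0
            (h := fun _ P => 1 - ∑ a, if (a, b) ∈ P then (1 : ℝ) else 0) ?_ ?_
          · intro z hz1 hz2 hz3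
            rw [E_beta_sub D θ ℓ hc (fun a : L => (a, b)) z hz3]
            have hq : (z.2.card : ℝ) + 1 ≤ θ (D.cr b) := by
              have h1 : (z.2.card : ℝ) ≤ d := by exact_mod_cast hz2
              have h2 := hθ (D.cr b)
              have h3 : (0 : ℝ) ≤ d := Nat.cast_nonneg _
              linarith
            have hcard : (z.1 ∪ D.rows z.2).card ≤ N := by
              have h1 := card_union_le z.1 (D.rows z.2)
              have h2 := rows_card D z.2
              omega
            have := col_sum D θ ℓ hm hb hz3 hq z.1 hcard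
            simp only at this ⊢
            rw [this, sub_self, abs_zero]
            exact hδ0.le
          · intro x P hs
            rw [neg_pair, ← col_last D hs]
            unfold ind
            rw [prod_pair (by simp)]
            have h1 : val D x P (Var.one : Var U L R) = true := by unfold val; rfl
            simp only [h1, if_true, mul_one]
            cases val D x P (Var.col b (Fin.last (Fintype.card L))) <;> simp
    · -- rows
      obtain ⟨a, ha, hC⟩ := mem_biUnion.1 hC
      rw [mem_union, mem_union] at hC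
      rcases hC with (hC | hC) | hC
      · rw [mem_singleton] at hC
        subst hC
        refine hz0 fun x P _ => forb_sat _ _ ⟨_, List.mem_singleton_self _, ?_⟩
        simp only
        rw [val_zero_row]
        simp
      · obtain ⟨i, -, hC⟩ := mem_biUnion.1 hC
        exact hz0 fun x P hs => add_sat _ (val_row_succ D x P a i) (val_row_excl D hs a i) C hC
      · unfold EQ at hC
        rw [mem_insert, mem_singleton] at hC
        rcases hC with rfl | rfl
        · refine hz0 fun x P hs => forb_sat _ _ ?_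
          by_cases h1 : val D x P (Var.row a (Fin.last (Fintype.card R))) = true
          · refine ⟨(Var.act a, false), by simp, ?_⟩
            simp only
            have h2 : val D x P (Var.act a) = true := by
              unfold val at h1 ⊢
              rw [decide_eq_true_eq] at h1 ⊢
              obtain ⟨i, -, hi⟩ := h1
              exact sat_mono (lits_sub_rows D hi) hs.2.2
            rw [h2]
            simp
          · exact ⟨(Var.row a (Fin.last (Fintype.card R)), true), by simp, h1⟩
        · refine err_bound D θ ℓ hS hδ0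
            (h := fun x P => beta (D.lits a, ∅) x P *
              (1 - ∑ b, if (a, b) ∈ P then (1 : ℝ) else 0)) ?_ ?_
          · intro z hz1 hz2 hz3
            have e1 : E D θ ℓ (fun x P => beta z x P * (beta (D.lits a, ∅) x P *
                (1 - ∑ b, if (a, b) ∈ P then (1 : ℝ) else 0))) =
                E D θ ℓ (fun x P => beta (z.1 ∪ D.lits a, z.2) x P *
                  (1 - ∑ b, if (a, b) ∈ P then (1 : ℝ) else 0)) := by
              refine E_congr D θ ℓ fun x P _ => ?_
              rw [← mul_assoc, beta_mul, union_empty]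
            rw [e1, E_beta_sub D θ ℓ hc (fun b : R => (a, b)) (z.1 ∪ D.lits a, z.2) hz3]
            have hq : ∀ j, (z.2.card : ℝ) + 1 ≤ θ j := by
              intro j
              have h1 : (z.2.card : ℝ) ≤ d := by exact_mod_cast hz2
              have h2 := hθ j
              have h3 : (0 : ℝ) ≤ d := Nat.cast_nonneg _
              linarith
            have hcard : (z.1 ∪ D.lits a ∪ D.rows z.2).card ≤ N := by
              have h1 := card_union_le (z.1 ∪ D.lits a) (D.rows z.2)
              have h3 := card_union_le z.1 (D.lits a)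
              have h4 := lits_card D a
              have h2 := rows_card D z.2
              omega
            exact row_sum D θ ℓ hm hT ha hz3 hq (z.1 ∪ D.lits a) hcard subset_union_right
          · intro x P hs
            rw [neg_pair, ← row_last D hs]
            unfold ind
            rw [prod_pair (by simp)]
            have h1 : beta (D.lits a, (∅ : Finset (L × R))) x P =
                if val D x P (Var.act a) = true then 1 else 0 := by
              unfold beta val
              simp only [decide_eq_true_eq, empty_subset, and_true]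
            simp only [h1]
            rw [mul_comm]
            congr 1
            cases val D x P (Var.row a (Fin.last (Fintype.card R))) <;> simp
    · -- activity
      obtain ⟨a, ha, hC⟩ := mem_biUnion.1 hC
      cases h : (D.act a).2 with
      | none =>
        rw [h] at hC
        simp only at hC
        exact hz0 fun x P _ => eq_sat _ (val_act_none D x P h) C hC
      | some u' =>
        rw [h] at hC
        simp only at hC
        exact hz0 fun x P _ => andn_sat _ (val_act_some D x P h) C hC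

end

end Pool.Agent.T9h85.MB
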