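import Pool.Agent.T9h19.MB.Defs

/-! # (C4) from the moments to the CNF of the system: the functional -/

set_option autoImplicit false
set_option linter.unusedSectionVars false

namespace Pool.Agent.T9h85.MB

open Finset Pool.Agent.T9h19.MB

section
variable {U L R J : Type} [Fintype U] [DecidableEq U] [Fintype L] [DecidableEq L]
  [Fintype R] [DecidableEq R] [Fintype J] [DecidableEq J]

/-- the assignment makes all literals true -/
def sat (x : U → Bool) (S : Finset (U × Bool)) : Prop := ∀ l ∈ S, x l.1 = l.2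

instance (x : U → Bool) (S : Finset (U × Bool)) : Decidable (sat x S) := by
  unfold sat; infer_instance

theorem sat_union {x : U → Bool} {S T : Finset (U × Bool)} :
    sat x (S ∪ T) ↔ sat x S ∧ sat x T := by
  unfold sat
  constructor
  · intro h
    exact ⟨fun l hl => h l (mem_union_left _ hl), fun l hl => h l (mem_union_right _ hl)⟩
  · rintro ⟨h1, h2⟩ l hl
    rcases mem_union.1 hl with h | h
    · exact h1 l h
    · exact h2 l h

theorem sat_mono {x : U → Bool} {S T : Finset (U × Bool)} (h : S ⊆ T) (hT : sat x T) : sat x S :=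
  fun l hl => hT l (h hl)

/-- all literals true under `x` -/
def fullx (x : U → Bool) : Finset (U × Bool) := univ.image fun u => (u, x u)

theorem mem_fullx {x : U → Bool} {l : U × Bool} : l ∈ fullx x ↔ x l.1 = l.2 := by
  unfold fullx
  simp only [mem_image, mem_univ, true_and]
  constructor
  · rintro ⟨u, rfl⟩; rfl
  · intro h; exact ⟨l.1, by rw [h]⟩

theorem marg {ℓ : Finset (U × Bool) → ℝ}
    (hc : ∀ (S : Finset (U × Bool)) (u : U), ℓ (insert (u, true) S) + ℓ (insert (u, false) S) = ℓ S)
    (T : Finset (U × Bool)) :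
    ∑ x : U → Bool, (if sat x T then ℓ (fullx x) else 0) = ℓ T := by
  classical
  induction h : (univ.filter fun u : U => (u, true) ∉ T ∧ (u, false) ∉ T).card
    using Nat.strong_induction_on generalizing T with
  | _ n ih =>
  by_cases hn : ∃ u : U, (u, true) ∉ T ∧ (u, false) ∉ T
  · obtain ⟨u, hu⟩ := hn
    have key : ∀ s : Bool, (univ.filter fun v : U => (v, true) ∉ insert (u, s) T ∧
        (v, false) ∉ insert (u, s) T).card < n := by
      intro s
      rw [← h]
      refine card_lt_card (Finset.ssubset_iff_subset_ne.2 ⟨?_, ?_⟩)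
      · intro v hv
        rw [mem_filter] at hv ⊢
        exact ⟨mem_univ _, fun h1 => hv.2.1 (mem_insert_of_mem h1),
          fun h1 => hv.2.2 (mem_insert_of_mem h1)⟩
      · intro heq
        have hmem : u ∈ (univ.filter fun v : U => (v, true) ∉ insert (u, s) T ∧
            (v, false) ∉ insert (u, s) T) := by
          rw [heq, mem_filter]
          exact ⟨mem_univ _, hu⟩
        rw [mem_filter] at hmem
        cases s
        · exact hmem.2.2 (mem_insert_self _ _)
        · exact hmem.2.1 (mem_insert_self _ _)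
    rw [← hc T u, ← ih _ (key true) (insert (u, true) T) rfl,
      ← ih _ (key false) (insert (u, false) T) rfl, ← sum_add_distrib]
    refine sum_congr rfl fun x _ => ?_
    have hins : ∀ s, sat x (insert (u, s) T) ↔ x u = s ∧ sat x T := by
      intro s
      unfold sat
      simp only [mem_insert, forall_eq_or_imp]
    simp only [hins]
    cases hx : x u <;> simp
  · push Not at hn
    by_cases hin : ∃ u, (u, true) ∈ T ∧ (u, false) ∈ T
    · obtain ⟨u, hu1, hu2⟩ := hin
      have h0 : ℓ T = 0 := by
        have := hc T u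
        rw [insert_eq_of_mem hu1, insert_eq_of_mem hu2] at this
        linarith
      rw [h0]
      refine sum_eq_zero fun x _ => if_neg fun hs => ?_
      have h1 := hs _ hu1
      have h2 := hs _ hu2
      simp only at h1 h2
      rw [h1] at h2
      exact Bool.noConfusion h2
    · push Not at hin
      -- `T` is the graph of an assignment
      set x0 : U → Bool := fun u => decide ((u, true) ∈ T) with hx0
      have hT : T = fullx x0 := by
        ext ⟨u, s⟩
        rw [mem_fullx]
        simp only [hx0]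
        cases s
        · simp only [decide_eq_false_iff_not]
          constructor
          · exact fun h1 h2 => hin u h2 h1
          · exact fun h1 => hn u h1
        · simp only [decide_eq_true_eq]
      have hs : ∀ x : U → Bool, sat x T ↔ x = x0 := by
        intro x
        rw [hT]
        constructor
        · intro h1
          ext u : 1
          exact h1 (u, x0 u) (mem_fullx.2 rfl)
        · rintro rfl l hl
          exact mem_fullx.1 hl
      simp only [hs]
      rw [sum_ite_eq' univ x0 (fun x => ℓ (fullx x)), if_pos (mem_univ _), ← hT]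

theorem ell_bot {ℓ : Finset (U × Bool) → ℝ}
    (hc : ∀ (S : Finset (U × Bool)) (u : U), ℓ (insert (u, true) S) + ℓ (insert (u, false) S) = ℓ S)
    {T : Finset (U × Bool)} {u : U} (h1 : (u, true) ∈ T) (h2 : (u, false) ∈ T) : ℓ T = 0 := by
  have := hc T u
  rw [insert_eq_of_mem h1, insert_eq_of_mem h2] at this
  linarith

variable (D : Dat U L R J) (θ : J → ℝ) (ℓ : Finset (U × Bool) → ℝ)

/-- all pairs may be matched -/
def Ok (Q : Finset (L × R)) : Prop := ∀ p ∈ Q, D.ok p.1 p.2

instance (Q : Finset (L × R)) : Decidable (Ok D Q) := by unfold Ok; infer_instance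

/-- the functional -/
noncomputable def E (f : (U → Bool) → Finset (L × R) → ℝ) : ℝ :=
  ∑ x, ∑ Q, if Ok D Q ∧ sat x (D.rows Q) then
    ℓ (fullx x) * D.wt θ Q * ∑ P ∈ Q.powerset, (-1) ^ P.card * f x (Q \ P) else 0

/-- the worlds which matter -/
def Sup (x : U → Bool) (P : Finset (L × R)) : Prop := Ok D P ∧ D.Mat P ∧ sat x (D.rows P)

theorem rows_mono {P Q : Finset (L × R)} (h : P ⊆ Q) : D.rows P ⊆ D.rows Q :=
  biUnion_subset_biUnion_of_subset_left _ h

theorem mat_mono {P Q : Finset (L × R)} (h : P ⊆ Q) (hQ : D.Mat Q) : D.Mat P :=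
  ⟨fun p hp => hQ.1 p (h hp), fun p hp q hq => hQ.2 p (h hp) q (h hq)⟩

theorem E_congr {f g : (U → Bool) → Finset (L × R) → ℝ}
    (h : ∀ x P, Sup D x P → f x P = g x P) : E D θ ℓ f = E D θ ℓ g := by
  unfold E
  refine sum_congr rfl fun x _ => sum_congr rfl fun Q _ => ?_
  split_ifs with hQ
  · by_cases hM : D.Mat Q
    · congr 1
      refine sum_congr rfl fun P _ => ?_
      rw [h x (Q \ P) ⟨fun p hp => hQ.1 p (sdiff_subset hp), mat_mono D sdiff_subset hM,
        sat_mono (rows_mono D sdiff_subset) hQ.2⟩]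
    · have : D.wt θ Q = 0 := if_neg hM
      rw [this, mul_zero, zero_mul, zero_mul]
  · rfl

theorem E_sum {ι : Type} (s : Finset ι) (c : ι → ℝ) (f : ι → (U → Bool) → Finset (L × R) → ℝ) :
    E D θ ℓ (fun x P => ∑ i ∈ s, c i * f i x P) = ∑ i ∈ s, c i * E D θ ℓ (f i) := by
  have hR : ∑ i ∈ s, c i * E D θ ℓ (f i) = ∑ x, ∑ Q, ∑ i ∈ s, c i * (if Ok D Q ∧ sat x (D.rows Q)
      then ℓ (fullx x) * D.wt θ Q * ∑ P ∈ Q.powerset, (-1) ^ P.card * f i x (Q \ P) else 0) := by
    unfold E
    rw [Finset.sum_congr rfl (fun i _ => Finset.mul_sum _ _ _), Finset.sum_comm]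
    refine sum_congr rfl fun x _ => ?_
    rw [Finset.sum_congr rfl (fun i _ => Finset.mul_sum _ _ _), Finset.sum_comm]
  rw [hR]
  unfold E
  refine sum_congr rfl fun x _ => sum_congr rfl fun Q _ => ?_
  split_ifs with hQ
  · have h1 : ∑ P ∈ Q.powerset, (-1 : ℝ) ^ P.card * ∑ i ∈ s, c i * f i x (Q \ P) =
        ∑ i ∈ s, c i * ∑ P ∈ Q.powerset, (-1 : ℝ) ^ P.card * f i x (Q \ P) := by
      rw [Finset.sum_congr rfl (fun P _ => Finset.mul_sum _ _ _), Finset.sum_comm]
      refine sum_congr rfl fun i _ => ?_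
      rw [mul_sum]
      refine sum_congr rfl fun P _ => ?_
      ring
    rw [h1, mul_sum]
    refine sum_congr rfl fun i _ => ?_
    ring
  · simp

theorem E_sub (f g : (U → Bool) → Finset (L × R) → ℝ) :
    E D θ ℓ (fun x P => f x P - g x P) = E D θ ℓ f - E D θ ℓ g := by
  have h := E_sum D θ ℓ (univ : Finset Bool) (fun b => if b then 1 else -1)
    (fun b => if b then f else g)
  simp only [Fintype.univ_bool, mem_singleton, Bool.true_eq_false, not_false_eq_true,
    sum_insert, sum_singleton, if_true, Bool.false_eq_true, if_false] at h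
  rw [show (fun x P => f x P - g x P) = fun x P => 1 * f x P + -1 * g x P from by
    funext x P; ring, h]
  ring

/-- the basic functions -/
def beta (z : Finset (U × Bool) × Finset (L × R)) (x : U → Bool) (P : Finset (L × R)) : ℝ :=
  if sat x z.1 ∧ z.2 ⊆ P then 1 else 0

theorem beta_mul (z z' : Finset (U × Bool) × Finset (L × R)) (x : U → Bool)
    (P : Finset (L × R)) : beta z x P * beta z' x P = beta (z.1 ∪ z'.1, z.2 ∪ z'.2) x P := by
  unfold beta
  simp only [sat_union, union_subset_iff]
  by_cases h1 : sat x z.1 <;> by_cases h2 : sat x z'.1 <;> by_cases h3 : z.2 ⊆ P <;>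
    by_cases h4 : z'.2 ⊆ P <;> simp [h1, h2, h3, h4]

theorem moebius (B Q : Finset (L × R)) :
    ∑ P ∈ Q.powerset, (-1 : ℝ) ^ P.card * (if B ⊆ Q \ P then 1 else 0) = if B = Q then 1 else 0 := by
  by_cases hB : B ⊆ Q
  · have h1 : ∑ P ∈ Q.powerset, (-1 : ℝ) ^ P.card * (if B ⊆ Q \ P then 1 else 0) =
        ∑ P ∈ (Q \ B).powerset, (-1 : ℝ) ^ P.card := by
      have h2 : (Q \ B).powerset = Q.powerset.filter fun P => B ⊆ Q \ P := by
        ext P
        simp only [mem_powerset, mem_filter, subset_sdiff]
        constructor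
        · rintro ⟨h3, h4⟩
          exact ⟨h3, hB, h4.symm⟩
        · rintro ⟨h3, h4, h5⟩
          exact ⟨h3, h5.symm⟩
      rw [h2, sum_filter]
      refine sum_congr rfl fun P _ => ?_
      split_ifs <;> simp
    rw [h1]
    have h3 := Finset.sum_powerset_neg_one_pow_card (x := Q \ B)
    have h4 : (∑ P ∈ (Q \ B).powerset, (-1 : ℝ) ^ P.card) =
        ((∑ P ∈ (Q \ B).powerset, (-1 : ℤ) ^ P.card : ℤ) : ℝ) := by push_cast; rfl
    rw [h4, h3]
    by_cases h5 : B = Q
    · subst h5; simp
    · rw [if_neg h5, if_neg]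
      · simp
      · intro h6
        exact h5 (subset_antisymm hB (sdiff_eq_empty_iff_subset.1 h6))
  · rw [if_neg (fun h : B = Q => hB (by rw [h]))]
    refine sum_eq_zero fun P _ => ?_
    rw [if_neg (fun h => hB (h.trans sdiff_subset)), mul_zero]

theorem E_beta
    (hc : ∀ (S : Finset (U × Bool)) (u : U), ℓ (insert (u, true) S) + ℓ (insert (u, false) S) = ℓ S)
    (z : Finset (U × Bool) × Finset (L × R)) :
    E D θ ℓ (beta z) = if Ok D z.2 then ℓ (z.1 ∪ D.rows z.2) * D.wt θ z.2 else 0 := by
  unfold E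
  have h1 : ∀ (x : U → Bool) (Q : Finset (L × R)),
      ∑ P ∈ Q.powerset, (-1 : ℝ) ^ P.card * beta z x (Q \ P) =
        (if sat x z.1 then 1 else 0) * if z.2 = Q then 1 else 0 := by
    intro x Q
    rw [← moebius, mul_sum]
    refine sum_congr rfl fun P _ => ?_
    unfold beta
    by_cases h2 : sat x z.1 <;> by_cases h3 : z.2 ⊆ Q \ P <;> simp [h2, h3]
  simp only [h1]
  have h2 : ∀ x : U → Bool, (∑ Q, if Ok D Q ∧ sat x (D.rows Q) then
      ℓ (fullx x) * D.wt θ Q * ((if sat x z.1 then 1 else 0) * if z.2 = Q then 1 else 0) else 0) =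
      if Ok D z.2 then (if sat x (z.1 ∪ D.rows z.2) then ℓ (fullx x) else 0) * D.wt θ z.2 else 0 := by
    intro x
    rw [Finset.sum_eq_single z.2]
    · simp only [sat_union]
      by_cases h3 : Ok D z.2 <;> by_cases h4 : sat x (D.rows z.2) <;> by_cases h5 : sat x z.1 <;>
        simp [h3, h4, h5]
    · intro Q _ hQ
      rw [if_neg (Ne.symm hQ)]
      simp
    · intro h; exact absurd (mem_univ _) h
  simp only [h2]
  split_ifs with h3
  · rw [← sum_mul, marg hc]
  · simp

end

end Pool.Agent.T9h85.MB
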