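import Pool.Agent.T9h85.MB.C4a

/-! # (C4) from the moments to the CNF of the system: weights of matchings -/

set_option autoImplicit false
set_option linter.unusedSectionVars false

namespace Pool.Agent.T9h85.MB

open Finset Pool.Agent.T9h19.MB

section
variable {U L R J : Type} [Fintype U] [DecidableEq U] [Fintype L] [DecidableEq L]
  [Fintype R] [DecidableEq R] [Fintype J] [DecidableEq J]

variable (D : Dat U L R J) (θ : J → ℝ) (ℓ : Finset (U × Bool) → ℝ)

/-- the number of pairs of colour `j` -/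
def qn (Q : Finset (L × R)) (j : J) : ℕ := (Q.filter fun p => D.cl p.1 = j).card

theorem qn_le (Q : Finset (L × R)) (j : J) : qn D Q j ≤ Q.card := card_filter_le _ _

theorem ff_succ (x : ℝ) (k : ℕ) : ff x (k + 1) = ff x k * (x - k) := prod_range_succ _ _

theorem mat_insert {Q : Finset (L × R)} (hQ : D.Mat Q) {a : L} {b : R} (hcl : D.cl a = D.cr b)
    (ha : ∀ p ∈ Q, p.1 ≠ a) (hb : ∀ p ∈ Q, p.2 ≠ b) : D.Mat (insert (a, b) Q) := by
  refine ⟨fun p hp => ?_, fun p hp q hq => ?_⟩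
  · rcases mem_insert.1 hp with rfl | h
    · exact hcl
    · exact hQ.1 p h
  · rcases mem_insert.1 hp with rfl | h <;> rcases mem_insert.1 hq with rfl | h'
    · simp
    · simp only
      exact ⟨fun h1 => absurd h1.symm (ha q h'), fun h1 => absurd h1.symm (hb q h')⟩
    · exact ⟨fun h1 => absurd h1 (ha p h), fun h1 => absurd h1 (hb p h)⟩
    · exact hQ.2 p h q h'

theorem wt_insert {Q : Finset (L × R)} {a : L} {b : R} (hcl : D.cl a = D.cr b)
    (ha : ∀ p ∈ Q, p.1 ≠ a) (hb : ∀ p ∈ Q, p.2 ≠ b) :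
    D.wt θ (insert (a, b) Q) = D.wt θ Q * (θ (D.cl a) - qn D Q (D.cl a))⁻¹ := by
  by_cases hQ : D.Mat Q
  · have hi := mat_insert D hQ hcl ha hb
    unfold Dat.wt
    rw [if_pos hQ, if_pos hi]
    have hn : (a, b) ∉ Q := fun h => ha _ h rfl
    have h1 : ∀ j, (ff (θ j) ((insert (a, b) Q).filter fun p => D.cl p.1 = j).card)⁻¹ =
        (ff (θ j) (Q.filter fun p => D.cl p.1 = j).card)⁻¹ *
          if j = D.cl a then (θ (D.cl a) - qn D Q (D.cl a))⁻¹ else 1 := by
      intro j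
      rw [filter_insert]
      by_cases hj : j = D.cl a
      · subst hj
        rw [if_pos rfl, if_pos rfl, card_insert_of_notMem (fun h => hn (mem_filter.1 h).1),
          ff_succ, mul_inv]
        rfl
      · rw [if_neg (fun h => hj h.symm), if_neg hj, mul_one]
    rw [prod_congr rfl fun j _ => h1 j, prod_mul_distrib]
    congr 1
    rw [prod_ite_eq' univ (D.cl a) (fun _ => (θ (D.cl a) - (qn D Q (D.cl a) : ℝ))⁻¹),
      if_pos (mem_univ _)]
  · have hi : ¬ D.Mat (insert (a, b) Q) := fun h => hQ (mat_mono D (subset_insert _ _) h)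
    unfold Dat.wt
    rw [if_neg hQ, if_neg hi, zero_mul]

theorem wt_insert_left {Q : Finset (L × R)} {a : L} {b : R} {p : L × R} (hp : p ∈ Q)
    (ha : p.1 = a) (hb : p.2 ≠ b) : D.wt θ (insert (a, b) Q) = 0 := by
  refine if_neg fun h => hb ?_
  have := (h.2 p (mem_insert_of_mem hp) (a, b) (mem_insert_self _ _)).1 ha
  exact this

theorem wt_insert_right {Q : Finset (L × R)} {a : L} {b : R} {p : L × R} (hp : p ∈ Q)
    (hb : p.2 = b) (ha : p.1 ≠ a) : D.wt θ (insert (a, b) Q) = 0 := by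
  refine if_neg fun h => ha ?_
  exact (h.2 p (mem_insert_of_mem hp) (a, b) (mem_insert_self _ _)).2 hb

theorem wt_bounds {Q : Finset (L × R)} (h : ∀ j, (Q.card : ℝ) + 1 ≤ θ j) :
    0 ≤ D.wt θ Q ∧ D.wt θ Q ≤ 1 := by
  unfold Dat.wt
  split_ifs
  · have h1 : ∀ j, 1 ≤ ff (θ j) (Q.filter fun p => D.cl p.1 = j).card := by
      intro j
      unfold ff
      have : ∏ _i ∈ range (Q.filter fun p => D.cl p.1 = j).card, (1 : ℝ) ≤
          ∏ i ∈ range (Q.filter fun p => D.cl p.1 = j).card, (θ j - i) := by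
        refine prod_le_prod (fun _ _ => zero_le_one) fun i hi => ?_
        have h2 : i + 1 ≤ Q.card := (mem_range.1 hi).trans_le (card_filter_le _ _)
        have h3 : (i : ℝ) + 1 ≤ Q.card := by exact_mod_cast h2
        have := h j
        linarith
      rwa [prod_const_one] at this
    refine ⟨prod_nonneg fun j _ => inv_nonneg.2 (zero_le_one.trans (h1 j)), ?_⟩
    exact prod_le_one (fun j _ => inv_nonneg.2 (zero_le_one.trans (h1 j)))
      fun j _ => inv_le_one_of_one_le₀ (h1 j)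
  · exact ⟨le_rfl, zero_le_one⟩

/-- the left tokens of colour `j` matched in `Q` are as many as the pairs of colour `j` -/
theorem card_left {Q : Finset (L × R)} (hok : Ok D Q) (hQ : D.Mat Q) (j : J) :
    ((D.Ls.filter fun a => D.cl a = j).filter fun a => ∃ p ∈ Q, p.1 = a).card = qn D Q j := by
  have h : (D.Ls.filter fun a => D.cl a = j).filter (fun a => ∃ p ∈ Q, p.1 = a) =
      (Q.filter fun p => D.cl p.1 = j).image Prod.fst := by
    ext a
    simp only [mem_filter, mem_image]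
    constructor
    · rintro ⟨⟨h1, h2⟩, p, hp, rfl⟩
      exact ⟨p, ⟨hp, h2⟩, rfl⟩
    · rintro ⟨p, ⟨hp, h2⟩, rfl⟩
      exact ⟨⟨(hok p hp).1, h2⟩, p, hp, rfl⟩
  rw [h, card_image_of_injOn]
  · rfl
  · intro p hp q hq hpq
    have hp' := (mem_filter.1 (mem_coe.1 hp)).1
    have hq' := (mem_filter.1 (mem_coe.1 hq)).1
    exact Prod.ext hpq ((hQ.2 p hp' q hq').1 hpq)

theorem card_right {Q : Finset (L × R)} (hok : Ok D Q) (hQ : D.Mat Q) (j : J) :
    ((D.Rs.filter fun b => D.cr b = j).filter fun b => ∃ p ∈ Q, p.2 = b).card = qn D Q j := by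
  have h : (D.Rs.filter fun b => D.cr b = j).filter (fun b => ∃ p ∈ Q, p.2 = b) =
      (Q.filter fun p => D.cl p.1 = j).image Prod.snd := by
    ext a
    simp only [mem_filter, mem_image]
    constructor
    · rintro ⟨⟨h1, h2⟩, p, hp, rfl⟩
      exact ⟨p, ⟨hp, (hok p hp).2.2.trans h2⟩, rfl⟩
    · rintro ⟨p, ⟨hp, h2⟩, rfl⟩
      exact ⟨⟨(hok p hp).2.1, (hok p hp).2.2.symm.trans h2⟩, p, hp, rfl⟩
  rw [h, card_image_of_injOn]
  · rfl
  · intro p hp q hq hpq
    have hp' := (mem_filter.1 (mem_coe.1 hp)).1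
    have hq' := (mem_filter.1 (mem_coe.1 hq)).1
    exact Prod.ext ((hQ.2 p hp' q hq').2 hpq) hpq

theorem rows_insert (Q : Finset (L × R)) (a : L) (b : R) :
    D.rows (insert (a, b) Q) = D.lits a ∪ D.rows Q := by
  unfold Dat.rows
  rw [biUnion_insert]

theorem lits_sub_rows {Q : Finset (L × R)} {p : L × R} (hp : p ∈ Q) :
    D.lits p.1 ⊆ D.rows Q := by
  intro l hl
  exact mem_biUnion.2 ⟨p, hp, hl⟩

/-- **The sum over a column.** -/
theorem col_sum {N : ℕ} (hm : Mom D θ N ℓ) {b : R} (hb : b ∈ D.Rs) {Q : Finset (L × R)}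
    (hok : Ok D Q) (hq : (Q.card : ℝ) + 1 ≤ θ (D.cr b)) (T : Finset (U × Bool))
    (hT : (T ∪ D.rows Q).card ≤ N) :
    ∑ a, (if D.ok a b then ℓ (T ∪ D.rows (insert (a, b) Q)) * D.wt θ (insert (a, b) Q) else 0) =
      ℓ (T ∪ D.rows Q) * D.wt θ Q := by
  by_cases hQ : D.Mat Q
  swap
  · have h0 : D.wt θ Q = 0 := if_neg hQ
    rw [h0, mul_zero]
    refine sum_eq_zero fun a _ => ?_
    have h1 : D.wt θ (insert (a, b) Q) = 0 :=
      if_neg fun h => hQ (mat_mono D (subset_insert _ _) h)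
    rw [h1, mul_zero, ite_self]
  by_cases hm' : ∃ p ∈ Q, p.2 = b
  · obtain ⟨p, hp, hpb⟩ := hm'
    rw [Finset.sum_eq_single p.1]
    · have h1 : (p.1, b) = p := by rw [← hpb]
      have h2 : D.ok p.1 b := by rw [← hpb]; exact hok p hp
      rw [if_pos h2, h1, insert_eq_of_mem hp]
    · intro a _ ha
      rw [wt_insert_right D θ hp hpb (Ne.symm ha), mul_zero, ite_self]
    · intro h; exact absurd (mem_univ _) h
  · push Not at hm'
    set j := D.cr b with hj
    have hne : θ j - (qn D Q j : ℝ) ≠ 0 := by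
      have h1 : ((qn D Q j : ℕ) : ℝ) ≤ Q.card := by exact_mod_cast qn_le D Q j
      linarith
    set S := T ∪ D.rows Q with hS
    have hterm : ∀ a, (if D.ok a b then
        ℓ (T ∪ D.rows (insert (a, b) Q)) * D.wt θ (insert (a, b) Q) else 0) =
        if a ∈ (D.Ls.filter fun a => D.cl a = j).filter (fun a => ¬ ∃ p ∈ Q, p.1 = a) then
          ℓ (S ∪ D.lits a) * (D.wt θ Q * (θ j - qn D Q j)⁻¹) else 0 := by
      intro a
      by_cases ha : D.ok a b
      · rw [if_pos ha]
        by_cases hma : ∃ p ∈ Q, p.1 = a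
        · obtain ⟨p, hp, hpa⟩ := hma
          rw [wt_insert_left D θ hp hpa (hm' p hp), mul_zero, if_neg]
          intro h
          exact (mem_filter.1 h).2 ⟨p, hp, hpa⟩
        · rw [if_pos (mem_filter.2 ⟨mem_filter.2 ⟨ha.1, ha.2.2⟩, hma⟩)]
          push Not at hma
          rw [wt_insert D θ ha.2.2 hma hm', rows_insert, ha.2.2, ← hj]
          congr 2
          rw [hS, union_comm (D.lits a), union_assoc]
      · rw [if_neg ha, if_neg]
        intro h
        have h1 := mem_filter.1 (mem_filter.1 h).1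
        exact ha ⟨h1.1, hb, h1.2⟩
    rw [sum_congr rfl fun a _ => hterm a, ← sum_filter, filter_mem_eq_inter, univ_inter, ← sum_mul]
    have hrel := hm.rel j S hT
    rw [← sum_filter_add_sum_filter_not (D.Ls.filter fun a => D.cl a = j)
      (fun a => ∃ p ∈ Q, p.1 = a)] at hrel
    have h2 : ∑ a ∈ (D.Ls.filter fun a => D.cl a = j).filter (fun a => ∃ p ∈ Q, p.1 = a),
        ℓ (S ∪ D.lits a) = qn D Q j * ℓ S := by
      rw [← card_left D hok hQ j, ← nsmul_eq_mul, ← sum_const]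
      refine sum_congr rfl fun a ha => ?_
      obtain ⟨p, hp, rfl⟩ := (mem_filter.1 ha).2
      congr 1
      exact union_eq_left.2 ((lits_sub_rows D hp).trans subset_union_right)
    rw [h2] at hrel
    have h3 : ∑ a ∈ (D.Ls.filter fun a => D.cl a = j).filter (fun a => ¬ ∃ p ∈ Q, p.1 = a),
        ℓ (S ∪ D.lits a) = (θ j - qn D Q j) * ℓ S := by linarith
    rw [h3]
    field_simp

/-- **The sum over a row.** -/
theorem row_sum {N : ℕ} (hm : Mom D θ N ℓ) {δ : ℝ} (hδ : ∀ j, |(D.cnt j : ℝ) - θ j| ≤ δ)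
    {a : L} (ha : a ∈ D.Ls) {Q : Finset (L × R)}
    (hok : Ok D Q) (hq : ∀ j, (Q.card : ℝ) + 1 ≤ θ j) (T : Finset (U × Bool))
    (hT : (T ∪ D.rows Q).card ≤ N) (hTa : D.lits a ⊆ T) :
    |ℓ (T ∪ D.rows Q) * D.wt θ Q -
      ∑ b, (if D.ok a b then ℓ (T ∪ D.rows (insert (a, b) Q)) * D.wt θ (insert (a, b) Q) else 0)|
      ≤ δ := by
  have hδ0 : 0 ≤ δ := (abs_nonneg _).trans (hδ (D.cl a))
  by_cases hQ : D.Mat Q
  swap
  · have h0 : D.wt θ Q = 0 := if_neg hQ
    have h2 : ∑ b, (if D.ok a b then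
        ℓ (T ∪ D.rows (insert (a, b) Q)) * D.wt θ (insert (a, b) Q) else 0) = 0 := by
      refine sum_eq_zero fun b _ => ?_
      have h1 : D.wt θ (insert (a, b) Q) = 0 :=
        if_neg fun h => hQ (mat_mono D (subset_insert _ _) h)
      rw [h1, mul_zero, ite_self]
    rw [h2, h0, mul_zero, sub_zero, abs_zero]
    exact hδ0
  by_cases hm' : ∃ p ∈ Q, p.1 = a
  · obtain ⟨p, hp, hpa⟩ := hm'
    rw [Finset.sum_eq_single p.2]
    · have h1 : (a, p.2) = p := by rw [← hpa]
      have h2 : D.ok a p.2 := by rw [← hpa]; exact hok p hp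
      rw [if_pos h2, h1, insert_eq_of_mem hp, sub_self, abs_zero]
      exact hδ0
    · intro b _ hb
      rw [wt_insert_left D θ hp hpa (Ne.symm hb), mul_zero, ite_self]
    · intro h; exact absurd (mem_univ _) h
  · push Not at hm'
    set j := D.cl a with hj
    have hq1 : ((qn D Q j : ℕ) : ℝ) ≤ Q.card := by exact_mod_cast qn_le D Q j
    have hpos : 1 ≤ θ j - (qn D Q j : ℝ) := by
      have := hq j
      linarith
    set S := T ∪ D.rows Q with hS
    have hterm : ∀ b, (if D.ok a b then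
        ℓ (T ∪ D.rows (insert (a, b) Q)) * D.wt θ (insert (a, b) Q) else 0) =
        if b ∈ (D.Rs.filter fun b => D.cr b = j).filter (fun b => ¬ ∃ p ∈ Q, p.2 = b) then
          ℓ S * (D.wt θ Q * (θ j - qn D Q j)⁻¹) else 0 := by
      intro b
      by_cases hb : D.ok a b
      · rw [if_pos hb]
        by_cases hmb : ∃ p ∈ Q, p.2 = b
        · obtain ⟨p, hp, hpb⟩ := hmb
          rw [wt_insert_right D θ hp hpb (hm' p hp), mul_zero, if_neg]
          intro h
          exact (mem_filter.1 h).2 ⟨p, hp, hpb⟩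
        · rw [if_pos (mem_filter.2 ⟨mem_filter.2 ⟨hb.2.1, hb.2.2.symm⟩, hmb⟩)]
          push Not at hmb
          rw [wt_insert D θ hb.2.2 hm' hmb, rows_insert, ← hj]
          congr 2
          rw [hS, ← union_assoc, union_eq_left.2 hTa]
      · rw [if_neg hb, if_neg]
        intro h
        have h1 := mem_filter.1 (mem_filter.1 h).1
        exact hb ⟨ha, h1.1, h1.2.symm⟩
    rw [sum_congr rfl fun b _ => hterm b, ← sum_filter, filter_mem_eq_inter, univ_inter, sum_const,
      nsmul_eq_mul]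
    have hcard : (((D.Rs.filter fun b => D.cr b = j).filter
        (fun b => ¬ ∃ p ∈ Q, p.2 = b)).card : ℝ) = (D.cnt j : ℝ) - qn D Q j := by
      have h1 := card_filter_add_card_filter_not (s := D.Rs.filter fun b => D.cr b = j)
        (fun b => ∃ p ∈ Q, p.2 = b)
      rw [card_right D hok hQ j] at h1
      have h2 : ((qn D Q j + ((D.Rs.filter fun b => D.cr b = j).filter
        (fun b => ¬ ∃ p ∈ Q, p.2 = b)).card : ℕ) : ℝ) = (D.cnt j : ℝ) := by
        rw [h1]; rfl
      push_cast at h2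
      linarith
    rw [hcard]
    have hid : ℓ S * D.wt θ Q - ((D.cnt j : ℝ) - qn D Q j) *
        (ℓ S * (D.wt θ Q * (θ j - qn D Q j)⁻¹)) =
        -((D.cnt j : ℝ) - θ j) * ((θ j - qn D Q j)⁻¹ * (ℓ S * D.wt θ Q)) := by
      have : θ j - (qn D Q j : ℝ) ≠ 0 := by linarith
      field_simp
      ring
    rw [hid, abs_mul, abs_neg]
    obtain ⟨hw0, hw1⟩ := wt_bounds D θ hq
    have h5 : |(θ j - (qn D Q j : ℝ))⁻¹ * (ℓ S * D.wt θ Q)| ≤ 1 := by
      rw [abs_mul, abs_mul, abs_of_nonneg (inv_nonneg.2 (zero_le_one.trans hpos)),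
        abs_of_nonneg hw0]
      have h6 : (θ j - (qn D Q j : ℝ))⁻¹ ≤ 1 := inv_le_one_of_one_le₀ hpos
      have h7 : |ℓ S| * D.wt θ Q ≤ 1 := mul_le_one₀ (hm.bdd S hT) hw0 hw1
      exact mul_le_one₀ h6 (mul_nonneg (abs_nonneg _) hw0) h7
    calc |(D.cnt j : ℝ) - θ j| * |(θ j - (qn D Q j : ℝ))⁻¹ * (ℓ S * D.wt θ Q)|
        ≤ δ * 1 := mul_le_mul (hδ j) h5 (abs_nonneg _) hδ0
      _ = δ := mul_one _

end

end Pool.Agent.T9h85.MB
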