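import Pool.Agent.T9h85.MB.C4b

/-! # (C4) from the moments to the CNF of the system: representations -/

set_option autoImplicit false
set_option linter.unusedSectionVars false

namespace Pool.Agent.T9h85.MB

open Finset Pool.Agent.T9h19.MB

section
variable {U L R J : Type} [Fintype U] [DecidableEq U] [Fintype L] [DecidableEq L]
  [Fintype R] [DecidableEq R] [Fintype J] [DecidableEq J]

variable (D : Dat U L R J) (θ : J → ℝ) (ℓ : Finset (U × Bool) → ℝ)

/-- the function is a combination of basic functions with at most `a` literals and `b` pairs, with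
sum of the absolute values of the coefficients at most `M` -/
def Rep (a b : ℕ) (M : ℝ) (f : (U → Bool) → Finset (L × R) → ℝ) : Prop :=
  ∃ k : Finset (U × Bool) × Finset (L × R) → ℝ,
    (∀ z, k z ≠ 0 → z.1.card ≤ a ∧ z.2.card ≤ b ∧ Ok D z.2) ∧ ∑ z, |k z| ≤ M ∧
    ∀ x P, Sup D x P → f x P = ∑ z, k z * beta z x P

variable {D}

theorem Rep.nonneg {a b : ℕ} {M : ℝ} {f : (U → Bool) → Finset (L × R) → ℝ} (h : Rep D a b M f) :
    0 ≤ M := by
  obtain ⟨k, -, h2, -⟩ := h
  exact (sum_nonneg fun _ _ => abs_nonneg _).trans h2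

theorem Rep.congr {a b : ℕ} {M : ℝ} {f g : (U → Bool) → Finset (L × R) → ℝ} (h : Rep D a b M f)
    (hfg : ∀ x P, Sup D x P → g x P = f x P) : Rep D a b M g := by
  obtain ⟨k, h1, h2, h3⟩ := h
  exact ⟨k, h1, h2, fun x P hs => (hfg x P hs).trans (h3 x P hs)⟩

theorem Rep.mono {a b a' b' : ℕ} {M M' : ℝ} {f : (U → Bool) → Finset (L × R) → ℝ}
    (h : Rep D a b M f) (ha : a ≤ a') (hb : b ≤ b') (hM : M ≤ M') : Rep D a' b' M' f := by
  obtain ⟨k, h1, h2, h3⟩ := h
  exact ⟨k, fun z hz => ⟨(h1 z hz).1.trans ha, (h1 z hz).2.1.trans hb, (h1 z hz).2.2⟩,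
    h2.trans hM, h3⟩

theorem Rep.beta (z0 : Finset (U × Bool) × Finset (L × R)) (hok : Ok D z0.2) :
    Rep D z0.1.card z0.2.card 1 (beta z0) := by
  classical
  refine ⟨fun z => if z = z0 then 1 else 0, fun z hz => ?_, ?_, fun x P _ => ?_⟩
  · have : z = z0 := by
      by_contra h
      exact hz (if_neg h)
    subst this
    exact ⟨le_rfl, le_rfl, hok⟩
  · have : ∀ z : Finset (U × Bool) × Finset (L × R), |(if z = z0 then (1 : ℝ) else 0)| =
        if z = z0 then 1 else 0 := by
      intro z; split_ifs <;> simp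
    simp only [this]
    rw [sum_ite_eq' univ z0 (fun _ => (1 : ℝ)), if_pos (mem_univ _)]
  · simp only [ite_mul, one_mul, zero_mul]
    rw [sum_ite_eq' univ z0 (fun z => MB.beta z x P), if_pos (mem_univ _)]

theorem Rep.zero : Rep D 0 0 0 (fun _ _ => 0) :=
  ⟨fun _ => 0, fun _ h => absurd rfl h, by simp, fun x P _ => by simp⟩

theorem Rep.one : Rep D 0 0 1 (fun _ _ => 1) := by
  have h := Rep.beta (D := D) (∅, ∅) (fun p hp => absurd hp (notMem_empty _))
  refine h.congr fun x P _ => ?_
  unfold MB.beta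
  rw [if_pos]
  exact ⟨fun l hl => absurd hl (notMem_empty _), empty_subset _⟩

theorem Rep.add {a b a' b' : ℕ} {M M' : ℝ} {f g : (U → Bool) → Finset (L × R) → ℝ}
    (h : Rep D a b M f) (h' : Rep D a' b' M' g) :
    Rep D (max a a') (max b b') (M + M') (fun x P => f x P + g x P) := by
  obtain ⟨k, h1, h2, h3⟩ := h
  obtain ⟨k', h1', h2', h3'⟩ := h'
  refine ⟨fun z => k z + k' z, fun z hz => ?_, ?_, fun x P hs => ?_⟩
  · by_cases h0 : k z = 0
    · have h0' : k' z ≠ 0 := fun h => hz (show k z + k' z = 0 by rw [h0, h, add_zero])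
      exact ⟨(h1' z h0').1.trans (le_max_right _ _), (h1' z h0').2.1.trans (le_max_right _ _),
        (h1' z h0').2.2⟩
    · exact ⟨(h1 z h0).1.trans (le_max_left _ _), (h1 z h0).2.1.trans (le_max_left _ _),
        (h1 z h0).2.2⟩
  · calc ∑ z, |k z + k' z| ≤ ∑ z, (|k z| + |k' z|) := sum_le_sum fun z _ => abs_add_le _ _
      _ = ∑ z, |k z| + ∑ z, |k' z| := sum_add_distrib
      _ ≤ M + M' := add_le_add h2 h2'
  · simp only
    rw [h3 x P hs, h3' x P hs, ← sum_add_distrib]
    exact sum_congr rfl fun z _ => by ring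

theorem Rep.neg {a b : ℕ} {M : ℝ} {f : (U → Bool) → Finset (L × R) → ℝ}
    (h : Rep D a b M f) : Rep D a b M (fun x P => - f x P) := by
  obtain ⟨k, h1, h2, h3⟩ := h
  refine ⟨fun z => - k z, fun z hz => h1 z (fun h => hz (show - k z = 0 by rw [h, neg_zero])), ?_,
    fun x P hs => ?_⟩
  · simpa only [abs_neg] using h2
  · simp only
    rw [h3 x P hs, ← sum_neg_distrib]
    exact sum_congr rfl fun z _ => by ring

theorem Rep.mul {a b a' b' : ℕ} {M M' : ℝ} {f g : (U → Bool) → Finset (L × R) → ℝ}
    (h : Rep D a b M f) (h' : Rep D a' b' M' g) :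
    Rep D (a + a') (b + b') (M * M') (fun x P => f x P * g x P) := by
  classical
  have hM := h.nonneg
  have hM' := h'.nonneg
  obtain ⟨k, h1, h2, h3⟩ := h
  obtain ⟨k', h1', h2', h3'⟩ := h'
  refine ⟨fun z => ∑ z1, ∑ z2, if (z1.1 ∪ z2.1, z1.2 ∪ z2.2) = z then k z1 * k' z2 else 0,
    fun z hz => ?_, ?_, fun x P hs => ?_⟩
  · obtain ⟨z1, -, hz1⟩ := exists_ne_zero_of_sum_ne_zero hz
    obtain ⟨z2, -, hz2⟩ := exists_ne_zero_of_sum_ne_zero hz1
    have he : (z1.1 ∪ z2.1, z1.2 ∪ z2.2) = z := by
      by_contra h; exact hz2 (if_neg h)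
    rw [if_pos he] at hz2
    have e1 := h1 z1 (left_ne_zero_of_mul hz2)
    have e2 := h1' z2 (right_ne_zero_of_mul hz2)
    rw [← he]
    refine ⟨(card_union_le _ _).trans (add_le_add e1.1 e2.1),
      (card_union_le _ _).trans (add_le_add e1.2.1 e2.2.1), fun p hp => ?_⟩
    rcases mem_union.1 hp with h | h
    · exact e1.2.2 p h
    · exact e2.2.2 p h
  · calc ∑ z, |∑ z1, ∑ z2, if (z1.1 ∪ z2.1, z1.2 ∪ z2.2) = z then k z1 * k' z2 else 0|
        ≤ ∑ z, ∑ z1, ∑ z2, if (z1.1 ∪ z2.1, z1.2 ∪ z2.2) = z then |k z1| * |k' z2| else 0 := by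
          refine sum_le_sum fun z _ => (abs_sum_le_sum_abs _ _).trans ?_
          refine sum_le_sum fun z1 _ => (abs_sum_le_sum_abs _ _).trans ?_
          refine sum_le_sum fun z2 _ => ?_
          split_ifs
          · rw [abs_mul]
          · rw [abs_zero]
      _ = ∑ z1, ∑ z2, |k z1| * |k' z2| := by
          rw [sum_comm]
          refine sum_congr rfl fun z1 _ => ?_
          rw [sum_comm]
          refine sum_congr rfl fun z2 _ => ?_
          rw [sum_ite_eq univ (z1.1 ∪ z2.1, z1.2 ∪ z2.2) (fun _ => |k z1| * |k' z2|),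
            if_pos (mem_univ _)]
      _ = (∑ z1, |k z1|) * ∑ z2, |k' z2| := by rw [sum_mul_sum]
      _ ≤ M * M' := mul_le_mul h2 h2' (sum_nonneg fun _ _ => abs_nonneg _) hM
  · simp only
    rw [h3 x P hs, h3' x P hs, sum_mul_sum]
    simp only [sum_mul]
    symm
    rw [sum_comm]
    refine sum_congr rfl fun z1 _ => ?_
    rw [sum_comm]
    refine sum_congr rfl fun z2 _ => ?_
    simp only [ite_mul, zero_mul]
    rw [sum_ite_eq univ (z1.1 ∪ z2.1, z1.2 ∪ z2.2)
      (fun z => k z1 * k' z2 * MB.beta z x P), if_pos (mem_univ _), ← beta_mul]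
    ring

theorem Rep.sum {ι : Type} (s : Finset ι) {a b : ℕ} {M : ℝ}
    {f : ι → (U → Bool) → Finset (L × R) → ℝ} (h : ∀ i ∈ s, Rep D a b M (f i)) :
    Rep D a b (s.card * M) (fun x P => ∑ i ∈ s, f i x P) := by
  classical
  induction s using Finset.induction_on with
  | empty =>
    refine (Rep.zero.mono (Nat.zero_le _) (Nat.zero_le _) (by simp)).congr fun x P _ => by simp
  | insert i s hi ih =>
    have h1 := (h i (mem_insert_self _ _)).add (ih fun j hj => h j (mem_insert_of_mem hj))
    rw [max_self, max_self] at h1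
    refine (h1.mono le_rfl le_rfl ?_).congr fun x P _ => ?_
    · rw [card_insert_of_notMem hi]
      push_cast
      linarith
    · rw [sum_insert hi]

theorem Rep.prod {ι : Type} (s : Finset ι) {a b : ℕ} {M : ℝ}
    {f : ι → (U → Bool) → Finset (L × R) → ℝ} (h : ∀ i ∈ s, Rep D a b M (f i)) :
    Rep D (s.card * a) (s.card * b) (M ^ s.card) (fun x P => ∏ i ∈ s, f i x P) := by
  classical
  induction s using Finset.induction_on with
  | empty =>
    refine (Rep.one.mono (Nat.zero_le _) (Nat.zero_le _) (by simp)).congr fun x P _ => by simp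
  | insert i s hi ih =>
    have h1 := (h i (mem_insert_self _ _)).mul (ih fun j hj => h j (mem_insert_of_mem hj))
    refine (h1.mono ?_ ?_ ?_).congr fun x P _ => ?_
    · rw [card_insert_of_notMem hi]; ring_nf; rfl
    · rw [card_insert_of_notMem hi]; ring_nf; rfl
    · rw [card_insert_of_notMem hi, pow_succ, mul_comm]
    · rw [prod_insert hi]

/-! ## the values of the variables -/

variable (D)

/-- the value of a variable in a world -/
noncomputable def val (x : U → Bool) (P : Finset (L × R)) : Var U L R → Bool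
  | .u v => x v
  | .act a => decide (sat x (D.lits a))
  | .w a b => decide ((a, b) ∈ P)
  | .col b j => decide (∃ i : Fin (Fintype.card L), i.val < j.val ∧ (en L i, b) ∈ P)
  | .row a j => decide (∃ i : Fin (Fintype.card R), i.val < j.val ∧ (a, en R i) ∈ P)
  | .one => true

/-- the indicator of a conjunction -/
noncomputable def ind (S : Finset (Var U L R × Bool)) (x : U → Bool) (P : Finset (L × R)) : ℝ :=
  ∏ l ∈ S, if val D x P l.1 = l.2 then 1 else 0

theorem ind_eq (S : Finset (Var U L R × Bool)) (x : U → Bool) (P : Finset (L × R)) :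
    ind D S x P = if ∀ l ∈ S, val D x P l.1 = l.2 then 1 else 0 := by
  unfold ind
  split_ifs with h
  · exact prod_eq_one fun l hl => if_pos (h l hl)
  · push Not at h
    obtain ⟨l, hl, hne⟩ := h
    exact prod_eq_zero hl (if_neg hne)

theorem ind_union (S T : Finset (Var U L R × Bool)) (x : U → Bool) (P : Finset (L × R)) :
    ind D (S ∪ T) x P = ind D S x P * ind D T x P := by
  rw [ind_eq, ind_eq, ind_eq]
  by_cases h1 : ∀ l ∈ S, val D x P l.1 = l.2
  · by_cases h2 : ∀ l ∈ T, val D x P l.1 = l.2
    · rw [if_pos h1, if_pos h2, if_pos, one_mul]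
      intro l hl
      rcases mem_union.1 hl with h | h
      · exact h1 l h
      · exact h2 l h
    · rw [if_neg h2, if_neg, mul_zero]
      exact fun h => h2 fun l hl => h l (mem_union_right _ hl)
  · rw [if_neg h1, if_neg, zero_mul]
    exact fun h => h1 fun l hl => h l (mem_union_left _ hl)

theorem en_surj {A : Type} [Fintype A] (a : A) : ∃ i, en A i = a :=
  ⟨Fintype.equivFin A a, by unfold en; simp⟩

theorem en_inj {A : Type} [Fintype A] {i j : Fin (Fintype.card A)} (h : en A i = en A j) :
    i = j := (Fintype.equivFin A).symm.injective h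

theorem lits_card (a : L) : (D.lits a).card ≤ 2 := by
  unfold Dat.lits
  split
  · simp
  · exact card_le_two

theorem rep_w (a : L) (b : R) :
    Rep D 2 1 1 (fun _ P => if (a, b) ∈ P then 1 else 0) := by
  by_cases h : D.ok a b
  · have h1 := Rep.beta (D := D) (∅, {(a, b)}) (fun p hp => by
      rw [mem_singleton] at hp
      rw [hp]; exact h)
    refine (h1.mono (by simp) (by simp) le_rfl).congr fun x P _ => ?_
    unfold beta
    have : sat x (∅ : Finset (U × Bool)) := fun l hl => absurd hl (notMem_empty _)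
    by_cases h2 : (a, b) ∈ P
    · rw [if_pos h2, if_pos ⟨this, singleton_subset_iff.2 h2⟩]
    · rw [if_neg h2, if_neg (fun h3 => h2 (singleton_subset_iff.1 h3.2))]
  · refine (Rep.zero.mono (Nat.zero_le _) (Nat.zero_le _) zero_le_one).congr fun x P hs => ?_
    rw [if_neg]
    exact fun h2 => h (hs.1 _ h2)

/-- at most one left token for every right token -/
theorem col_unique {x : U → Bool} {P : Finset (L × R)} (hs : Sup D x P) {a a' : L} {b : R}
    (h : (a, b) ∈ P) (h' : (a', b) ∈ P) : a = a' := (hs.2.1.2 _ h _ h').2 rfl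

theorem row_unique {x : U → Bool} {P : Finset (L × R)} (hs : Sup D x P) {a : L} {b b' : R}
    (h : (a, b) ∈ P) (h' : (a, b') ∈ P) : b = b' := (hs.2.1.2 _ h _ h').1 rfl

theorem col_eq_sum {x : U → Bool} {P : Finset (L × R)} (hs : Sup D x P) (b : R)
    (j : Fin (Fintype.card L + 1)) :
    (if val D x P (.col b j) = true then (1 : ℝ) else 0) =
      ∑ i ∈ univ.filter (fun i : Fin (Fintype.card L) => i.val < j.val),
        if (en L i, b) ∈ P then 1 else 0 := by
  unfold val
  simp only [decide_eq_true_eq]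
  split_ifs with h
  · obtain ⟨i, hi, hP⟩ := h
    rw [Finset.sum_eq_single i]
    · rw [if_pos hP]
    · intro i' _ hne
      rw [if_neg]
      exact fun h2 => hne (en_inj (col_unique D hs h2 hP))
    · intro h2
      exact absurd (mem_filter.2 ⟨mem_univ i, hi⟩ : i ∈ univ.filter _) h2
  · symm
    refine sum_eq_zero fun i hi => if_neg fun h2 => h ⟨i, (mem_filter.1 hi).2, h2⟩

theorem row_eq_sum {x : U → Bool} {P : Finset (L × R)} (hs : Sup D x P) (a : L)
    (j : Fin (Fintype.card R + 1)) :
    (if val D x P (.row a j) = true then (1 : ℝ) else 0) =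
      ∑ i ∈ univ.filter (fun i : Fin (Fintype.card R) => i.val < j.val),
        if (a, en R i) ∈ P then 1 else 0 := by
  unfold val
  simp only [decide_eq_true_eq]
  split_ifs with h
  · obtain ⟨i, hi, hP⟩ := h
    rw [Finset.sum_eq_single i]
    · rw [if_pos hP]
    · intro i' _ hne
      rw [if_neg]
      exact fun h2 => hne (en_inj (row_unique D hs h2 hP))
    · intro h2
      exact absurd (mem_filter.2 ⟨mem_univ i, hi⟩ : i ∈ univ.filter _) h2
  · symm
    refine sum_eq_zero fun i hi => if_neg fun h2 => h ⟨i, (mem_filter.1 hi).2, h2⟩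

/-- every variable is a short combination -/
theorem rep_var (v : Var U L R) :
    Rep D 2 1 (sz U L R) (fun x P => if val D x P v = true then 1 else 0) := by
  have hsz : (1 : ℝ) ≤ (sz U L R : ℕ) := by
    have : 1 ≤ sz U L R := by unfold sz; omega
    exact_mod_cast this
  cases v with
  | u v =>
    have h1 := Rep.beta (D := D) ({(v, true)}, ∅) (fun p hp => absurd hp (notMem_empty _))
    refine (h1.mono (by simp) (by simp) hsz).congr fun x P _ => ?_
    unfold beta val
    by_cases h2 : x v = true
    · rw [if_pos h2, if_pos]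
      exact ⟨fun l hl => by rw [mem_singleton.1 hl]; exact h2, empty_subset _⟩
    · rw [if_neg h2, if_neg]
      exact fun h3 => h2 (h3.1 (v, true) (mem_singleton_self _))
  | act a =>
    have h1 := Rep.beta (D := D) (D.lits a, ∅) (fun p hp => absurd hp (notMem_empty _))
    refine (h1.mono (lits_card D a) (by simp) hsz).congr fun x P _ => ?_
    unfold beta val
    simp only [decide_eq_true_eq, empty_subset, and_true]
  | w a b =>
    refine ((rep_w D a b).mono le_rfl le_rfl hsz).congr fun x P _ => ?_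
    unfold val
    simp only [decide_eq_true_eq]
  | col b j =>
    have h1 := Rep.sum (D := D) (univ.filter (fun i : Fin (Fintype.card L) => i.val < j.val))
      (fun i _ => rep_w D (en L i) b)
    refine (h1.mono le_rfl le_rfl ?_).congr fun x P hs => col_eq_sum D hs b j
    rw [mul_one]
    have h2 : (univ.filter (fun i : Fin (Fintype.card L) => i.val < j.val)).card ≤ sz U L R := by
      refine (card_filter_le _ _).trans ?_
      rw [card_univ, Fintype.card_fin]
      unfold sz; omega
    exact_mod_cast h2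
  | row a j =>
    have h1 := Rep.sum (D := D) (univ.filter (fun i : Fin (Fintype.card R) => i.val < j.val))
      (fun i _ => rep_w D a (en R i))
    refine (h1.mono le_rfl le_rfl ?_).congr fun x P hs => row_eq_sum D hs a j
    rw [mul_one]
    have h2 : (univ.filter (fun i : Fin (Fintype.card R) => i.val < j.val)).card ≤ sz U L R := by
      refine (card_filter_le _ _).trans ?_
      rw [card_univ, Fintype.card_fin]
      unfold sz; omega
    exact_mod_cast h2
  | one =>
    refine (Rep.one.mono (Nat.zero_le _) (Nat.zero_le _) hsz).congr fun x P _ => ?_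
    unfold val
    rw [if_pos rfl]

theorem rep_lit (l : Var U L R × Bool) :
    Rep D 2 1 (2 * sz U L R) (fun x P => if val D x P l.1 = l.2 then 1 else 0) := by
  have hsz : (1 : ℝ) ≤ (sz U L R : ℕ) := by
    have : 1 ≤ sz U L R := by unfold sz; omega
    exact_mod_cast this
  obtain ⟨v, s⟩ := l
  cases s
  · have h1 := (Rep.one (D := D)).add (rep_var D v).neg
    refine (h1.mono (by simp) (by simp) (by linarith)).congr fun x P _ => ?_
    simp only
    cases val D x P v <;> simp
  · exact (rep_var D v).mono le_rfl le_rfl (by linarith)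

theorem rep_ind (S : Finset (Var U L R × Bool)) :
    Rep D (2 * S.card) S.card ((2 * sz U L R) ^ S.card) (ind D S) := by
  have h := Rep.prod (D := D) S (fun l _ => rep_lit D l)
  refine (h.mono (by rw [mul_comm]) (by rw [mul_one]) le_rfl).congr fun x P _ => rfl

end

end Pool.Agent.T9h85.MB
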