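import Pool.Agent.T9h85.MB.C4c

/-! # (C4) from the moments to the CNF of the system -/

set_option autoImplicit false
set_option linter.unusedSectionVars false

namespace Pool.Agent.T9h85.MB

open Finset Pool.Agent.T9h19.MB

section
variable {U L R J : Type} [Fintype U] [DecidableEq U] [Fintype L] [DecidableEq L]
  [Fintype R] [DecidableEq R] [Fintype J] [DecidableEq J]

variable (D : Dat U L R J) (θ : J → ℝ) (ℓ : Finset (U × Bool) → ℝ)

theorem E_bilin {ι : Type} [Fintype ι] (c : ι → ℝ) (f : ι → (U → Bool) → Finset (L × R) → ℝ) :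
    E D θ ℓ (fun x P => (∑ i, c i * f i x P) * ∑ j, c j * f j x P) =
      ∑ i, ∑ j, c i * c j * E D θ ℓ (fun x P => f i x P * f j x P) := by
  have h1 : (fun (x : U → Bool) (P : Finset (L × R)) =>
      (∑ i, c i * f i x P) * ∑ j, c j * f j x P) =
      fun x P => ∑ i, c i * (fun x P => ∑ j, c j * (fun x P => f i x P * f j x P) x P) x P := by
    funext x P
    rw [sum_mul]
    refine sum_congr rfl fun i _ => ?_
    simp only [mul_sum]
    refine sum_congr rfl fun j _ => ?_
    ring
  rw [h1, E_sum]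
  refine sum_congr rfl fun i _ => ?_
  rw [E_sum, mul_sum]
  refine sum_congr rfl fun j _ => ?_
  ring

theorem E_rep_bound {a b : ℕ} {M ε : ℝ} {f : (U → Bool) → Finset (L × R) → ℝ}
    (hf : Rep D a b M f) (h : (U → Bool) → Finset (L × R) → ℝ) (hε : 0 ≤ ε)
    (hh : ∀ z : Finset (U × Bool) × Finset (L × R), z.1.card ≤ a → z.2.card ≤ b → Ok D z.2 →
      |E D θ ℓ (fun x P => beta z x P * h x P)| ≤ ε) :
    |E D θ ℓ (fun x P => f x P * h x P)| ≤ M * ε := by
  obtain ⟨k, h1, h2, h3⟩ := hf
  have e1 : E D θ ℓ (fun x P => f x P * h x P) =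
      ∑ z, k z * E D θ ℓ (fun x P => beta z x P * h x P) := by
    rw [← E_sum]
    refine E_congr D θ ℓ fun x P hs => ?_
    rw [h3 x P hs, sum_mul]
    exact sum_congr rfl fun z _ => by ring
  rw [e1]
  calc |∑ z, k z * E D θ ℓ (fun x P => beta z x P * h x P)|
      ≤ ∑ z, |k z| * |E D θ ℓ (fun x P => beta z x P * h x P)| := by
        refine (abs_sum_le_sum_abs _ _).trans (sum_le_sum fun z _ => ?_)
        rw [abs_mul]
    _ ≤ ∑ z, |k z| * ε := by
        refine sum_le_sum fun z _ => ?_
        by_cases hz : k z = 0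
        · rw [hz, abs_zero, zero_mul, zero_mul]
        · exact mul_le_mul_of_nonneg_left (hh z (h1 z hz).1 (h1 z hz).2.1 (h1 z hz).2.2)
            (abs_nonneg _)
    _ = (∑ z, |k z|) * ε := by rw [sum_mul]
    _ ≤ M * ε := mul_le_mul_of_nonneg_right h2 hε

theorem E_beta_sub
    (hc : ∀ (S : Finset (U × Bool)) (u : U), ℓ (insert (u, true) S) + ℓ (insert (u, false) S) = ℓ S)
    {ι : Type} [Fintype ι] (p : ι → L × R) (z : Finset (U × Bool) × Finset (L × R))
    (hz : Ok D z.2) :
    E D θ ℓ (fun x P => beta z x P * (1 - ∑ i, if p i ∈ P then 1 else 0)) =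
      ℓ (z.1 ∪ D.rows z.2) * D.wt θ z.2 - ∑ i, if D.ok (p i).1 (p i).2 then
        ℓ (z.1 ∪ D.rows (insert (p i) z.2)) * D.wt θ (insert (p i) z.2) else 0 := by
  have h1 : (fun (x : U → Bool) (P : Finset (L × R)) =>
      beta z x P * (1 - ∑ i, if p i ∈ P then (1 : ℝ) else 0)) =
      fun x P => beta z x P - (fun x P => ∑ i, 1 * beta (z.1, insert (p i) z.2) x P) x P := by
    funext x P
    rw [mul_sub, mul_one, mul_sum]
    congr 1
    refine sum_congr rfl fun i _ => ?_
    unfold beta
    simp only [insert_subset_iff]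
    by_cases h1 : sat x z.1 <;> by_cases h2 : z.2 ⊆ P <;> by_cases h3 : p i ∈ P <;>
      simp [h1, h2, h3]
  rw [h1, E_sub, E_sum, E_beta D θ ℓ hc, if_pos hz]
  congr 1
  refine sum_congr rfl fun i _ => ?_
  rw [one_mul, E_beta D θ ℓ hc]
  by_cases h2 : D.ok (p i).1 (p i).2
  · rw [if_pos h2, if_pos]
    intro q hq
    rcases mem_insert.1 hq with rfl | h
    · exact h2
    · exact hz q h
  · rw [if_neg h2, if_neg]
    exact fun h => h2 (h (p i) (mem_insert_self _ _))

theorem rows_card (Q : Finset (L × R)) : (D.rows Q).card ≤ 2 * Q.card := by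
  unfold Dat.rows
  refine card_biUnion_le.trans ?_
  refine (sum_le_sum fun p _ => lits_card D p.1).trans ?_
  rw [sum_const, smul_eq_mul, mul_comm]

/-! ## satisfied clauses -/

theorem forb_sat {V : Type} [DecidableEq V] (v : V → Bool) (s : List (V × Bool))
    (h : ∃ l ∈ s, v l.1 ≠ l.2) : ∃ l ∈ forb s, v l.1 = l.2 := by
  obtain ⟨l, hl, hne⟩ := h
  refine ⟨(l.1, !l.2), ?_, ?_⟩
  · unfold forb
    rw [List.mem_toFinset]
    exact List.mem_map.2 ⟨l, hl, rfl⟩
  · simp only
    cases h1 : l.2 <;> cases h2 : v l.1 <;> simp_all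

theorem add_sat {V : Type} [DecidableEq V] (v : V → Bool) {x y z : V}
    (hz : v z = (v x || v y)) (hxy : ¬ (v x = true ∧ v y = true)) :
    ∀ C ∈ ADD x y z, ∃ l ∈ C, v l.1 = l.2 := by
  intro C hC
  simp only [ADD, mem_insert, mem_singleton] at hC
  rcases hC with rfl | rfl | rfl | rfl | rfl <;> refine forb_sat v _ ?_ <;>
    simp only [List.mem_cons, List.not_mem_nil, or_false, exists_eq_or_imp, exists_eq_left] <;>
    cases h1 : v x <;> cases h2 : v y <;> simp_all

theorem eq_sat {V : Type} [DecidableEq V] (v : V → Bool) {x y : V}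
    (h : v x = v y) : ∀ C ∈ EQ x y, ∃ l ∈ C, v l.1 = l.2 := by
  intro C hC
  simp only [EQ, mem_insert, mem_singleton] at hC
  rcases hC with rfl | rfl <;> refine forb_sat v _ ?_ <;>
    simp only [List.mem_cons, List.not_mem_nil, or_false, exists_eq_or_imp, exists_eq_left] <;>
    cases h1 : v x <;> simp_all

theorem andn_sat {V : Type} [DecidableEq V] (v : V → Bool) {x y z : V}
    (hz : v z = (v x && !v y)) : ∀ C ∈ ANDN x y z, ∃ l ∈ C, v l.1 = l.2 := by
  intro C hC
  simp only [ANDN, mem_insert, mem_singleton] at hC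
  rcases hC with rfl | rfl | rfl | rfl <;> refine forb_sat v _ ?_ <;>
    simp only [List.mem_cons, List.not_mem_nil, or_false, exists_eq_or_imp, exists_eq_left] <;>
    cases h1 : v x <;> cases h2 : v y <;> simp_all

theorem e_zero {C : Cl (Var U L R)} (S : Finset (Var U L R × Bool))
    (h : ∀ x P, Sup D x P → ∃ l ∈ C, val D x P l.1 = l.2) :
    E D θ ℓ (ind D (S ∪ neg C)) = 0 := by
  have h1 : E D θ ℓ (ind D (S ∪ neg C)) = E D θ ℓ (fun x P => ∑ i ∈ (∅ : Finset ℕ), 1 * 0) := by
    refine E_congr D θ ℓ fun x P hs => ?_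
    rw [sum_empty, ind_eq, if_neg]
    intro hall
    obtain ⟨l, hl, hv⟩ := h x P hs
    have := hall (l.1, !l.2) (mem_union_right _ (mem_image.2 ⟨l, hl, rfl⟩))
    simp only at this
    rw [hv] at this
    exact absurd this (by cases l.2 <;> simp)
  rw [h1]
  exact E_sum D θ ℓ (∅ : Finset ℕ) (fun _ => 1) (fun _ _ _ => 0)

/-! ## the semantics of the prefix variables -/

theorem val_col_succ (x : U → Bool) (P : Finset (L × R)) (b : R) (i : Fin (Fintype.card L)) :
    val D x P (.col b i.succ) = (val D x P (.col b i.castSucc) || val D x P (.w (en L i) b)) := by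
  unfold val
  rw [Bool.eq_iff_iff]
  simp only [decide_eq_true_eq, Bool.or_eq_true, Fin.val_succ, Fin.val_castSucc]
  constructor
  · rintro ⟨k, hk, hP⟩
    rcases Nat.lt_succ_iff_lt_or_eq.1 hk with h | h
    · exact Or.inl ⟨k, h, hP⟩
    · have : k = i := Fin.ext h
      rw [this] at hP
      exact Or.inr hP
  · rintro (⟨k, hk, hP⟩ | hP)
    · exact ⟨k, by omega, hP⟩
    · exact ⟨i, by omega, hP⟩

theorem val_col_excl {x : U → Bool} {P : Finset (L × R)} (hs : Sup D x P) (b : R)
    (i : Fin (Fintype.card L)) :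
    ¬ (val D x P (.col b i.castSucc) = true ∧ val D x P (.w (en L i) b) = true) := by
  unfold val
  simp only [decide_eq_true_eq, Fin.val_castSucc]
  rintro ⟨⟨k, hk, hP⟩, hP'⟩
  have := en_inj (col_unique D hs hP hP')
  rw [this] at hk
  exact lt_irrefl _ hk

theorem val_row_succ (x : U → Bool) (P : Finset (L × R)) (a : L) (i : Fin (Fintype.card R)) :
    val D x P (.row a i.succ) = (val D x P (.row a i.castSucc) || val D x P (.w a (en R i))) := by
  unfold val
  rw [Bool.eq_iff_iff]
  simp only [decide_eq_true_eq, Bool.or_eq_true, Fin.val_succ, Fin.val_castSucc]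
  constructor
  · rintro ⟨k, hk, hP⟩
    rcases Nat.lt_succ_iff_lt_or_eq.1 hk with h | h
    · exact Or.inl ⟨k, h, hP⟩
    · have : k = i := Fin.ext h
      rw [this] at hP
      exact Or.inr hP
  · rintro (⟨k, hk, hP⟩ | hP)
    · exact ⟨k, by omega, hP⟩
    · exact ⟨i, by omega, hP⟩

theorem val_row_excl {x : U → Bool} {P : Finset (L × R)} (hs : Sup D x P) (a : L)
    (i : Fin (Fintype.card R)) :
    ¬ (val D x P (.row a i.castSucc) = true ∧ val D x P (.w a (en R i)) = true) := by
  unfold val
  simp only [decide_eq_true_eq, Fin.val_castSucc]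
  rintro ⟨⟨k, hk, hP⟩, hP'⟩
  have := en_inj (row_unique D hs hP hP')
  rw [this] at hk
  exact lt_irrefl _ hk

theorem val_zero_col (x : U → Bool) (P : Finset (L × R)) (b : R) :
    val D x P (.col b 0) = false := by
  unfold val
  simp

theorem val_zero_row (x : U → Bool) (P : Finset (L × R)) (a : L) :
    val D x P (.row a 0) = false := by
  unfold val
  simp

/-- the last column variable -/
theorem col_last {x : U → Bool} {P : Finset (L × R)} (hs : Sup D x P) (b : R) :
    (if val D x P (.col b (Fin.last _)) = true then (1 : ℝ) else 0) =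
      ∑ a, if (a, b) ∈ P then 1 else 0 := by
  rw [col_eq_sum D hs]
  have h1 : (univ.filter fun i : Fin (Fintype.card L) =>
      i.val < (Fin.last (Fintype.card L)).val) = univ := by
    refine filter_true_of_mem fun i _ => ?_
    exact i.2
  rw [h1]
  exact Equiv.sum_comp (Fintype.equivFin L).symm (fun a => if (a, b) ∈ P then (1 : ℝ) else 0)

theorem row_last {x : U → Bool} {P : Finset (L × R)} (hs : Sup D x P) (a : L) :
    (if val D x P (.row a (Fin.last _)) = true then (1 : ℝ) else 0) =
      ∑ b, if (a, b) ∈ P then 1 else 0 := by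
  rw [row_eq_sum D hs]
  have h1 : (univ.filter fun i : Fin (Fintype.card R) =>
      i.val < (Fin.last (Fintype.card R)).val) = univ := by
    refine filter_true_of_mem fun i _ => ?_
    exact i.2
  rw [h1]
  exact Equiv.sum_comp (Fintype.equivFin R).symm (fun b => if (a, b) ∈ P then (1 : ℝ) else 0)

theorem lits_none {a : L} (h : (D.act a).2 = none) : D.lits a = {((D.act a).1, true)} := by
  unfold Dat.lits
  rw [h]

theorem lits_some {a : L} {u' : U} (h : (D.act a).2 = some u') :
    D.lits a = {((D.act a).1, true), (u', false)} := by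
  unfold Dat.lits
  rw [h]

theorem val_act_none (x : U → Bool) (P : Finset (L × R)) {a : L} (h : (D.act a).2 = none) :
    val D x P (.act a) = x (D.act a).1 := by
  unfold val
  rw [Bool.eq_iff_iff, decide_eq_true_iff]
  unfold sat
  rw [lits_none D h]
  simp

theorem val_act_some (x : U → Bool) (P : Finset (L × R)) {a : L} {u' : U}
    (h : (D.act a).2 = some u') :
    val D x P (.act a) = (x (D.act a).1 && !x u') := by
  unfold val
  rw [Bool.eq_iff_iff, decide_eq_true_iff]
  unfold sat
  rw [lits_some D h]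
  simp

end

end Pool.Agent.T9h85.MB
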